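import Mathlib
import Pool.Agent.MP_c36293_nt.H93.Defs
import Pool.Agent.MP_c36293_nt.H93.Int

set_option autoImplicit false

open scoped ENNReal NNReal

namespace Pool.Agent.Results.MP_c36293_nt.AllDims

open Pool.Agent.MP_c36293_nt.H93

/-- In every dimension `d ≥ 2` and for every exponent `p ≥ 1` the ratio of the periodic and the
extreme `L_p` discrepancy is unbounded over finite point sets in `[0,1)^d`. -/
theorem result (d : ℕ) (hd : 2 ≤ d) (p : ℝ) (hp : 1 ≤ p) (C : ℝ≥0) :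
    ∃ P : Finset (Fin d → ℝ), P.Nonempty ∧ (∀ x ∈ P, ∀ j, 0 ≤ x j ∧ x j < 1) ∧
      (C : ℝ≥0∞) * extr p P < per p P ∧ per p P ≠ ⊤ := by
  obtain ⟨n, rfl⟩ : ∃ n, d = n + 2 := ⟨d - 2, by omega⟩
  obtain ⟨M, k, hM, h⟩ := unbounded n p hp C
  refine ⟨pts n M k, ?_, ?_, h, per_ne_top hp _⟩
  · exact ⟨_, Finset.mem_image_of_mem _ (Finset.mem_univ fun _ => ⟨0, hM⟩)⟩
  · intro x hx j
    obtain ⟨a, -, rfl⟩ := Finset.mem_image.1 hx
    exact pt_mem n M k hM a j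

end Pool.Agent.Results.MP_c36293_nt.AllDims
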